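import Pool.Agent.Helper79.GL4.GoalsR

/-!
# GL4, packet AL (MP_27a5f8_al): a suitable linear character of the multiplicative group
-/

namespace Pool.Agent.Helper83.GL4

theorem al : GL4.AL := by
  intro F _ _ hq
  obtain ⟨g, hg⟩ := IsCyclic.exists_generator (α := Fˣ)
  have hcard : Nat.card Fˣ = Nat.card F - 1 := Nat.card_units F
  have hord : orderOf g = Nat.card F - 1 := by
    rw [← hcard]; exact orderOf_eq_card_of_forall_mem_zpowers hg
  have : NeZero (Monoid.exponent Fˣ) := ⟨Monoid.exponent_ne_zero_of_finite⟩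
  have key : ∀ a : Fˣ, a ≠ 1 → ∃ φ : Fˣ →* ℂˣ, φ a ≠ 1 := fun a ha =>
    CommGroup.exists_apply_ne_one_of_hasEnoughRootsOfUnity Fˣ ℂ ha
  by_cases h7 : 7 ≤ Nat.card F
  · have h4 : g ^ 4 ≠ 1 := by
      intro h
      have := orderOf_dvd_of_pow_eq_one h
      rw [hord] at this
      have := Nat.le_of_dvd (by norm_num) this
      omega
    obtain ⟨φ, hφ⟩ := key _ h4
    refine ⟨φ.comp (powMonoidHom 2), ⟨g, ?_⟩, fun _ => ?_⟩
    · simpa [← pow_mul] using hφ
    · simp
  · have h2 : g ^ 2 ≠ 1 := by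
      intro h
      have := orderOf_dvd_of_pow_eq_one h
      rw [hord] at this
      have := Nat.le_of_dvd (by norm_num) this
      omega
    obtain ⟨φ, hφ⟩ := key _ h2
    exact ⟨φ, ⟨g, hφ⟩, fun h => absurd h h7⟩

end Pool.Agent.Helper83.GL4

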